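import Pool.Agent.LPW.StmtsC

/-!
Squad LPW, row BPC (helper13): the points which are smooth modulo `l`.
-/

set_option autoImplicit false

namespace Pool.Agent.LPW.H13

open MvPolynomial

/-- The polynomial `G(a, T)` modulo `l`. -/
noncomputable def qa (l : ℕ) (G : MvPolynomial (Fin 2) ℤ) (a : ZMod l) : Polynomial (ZMod l) :=
  aeval (fun i : Fin 2 => if i = 0 then Polynomial.C a else Polynomial.X)
    (map (Int.castRingHom (ZMod l)) G)

theorem derivative_aeval {R : Type} [CommRing R] (a : R) (F : MvPolynomial (Fin 2) R) :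
    Polynomial.derivative (aeval (fun i : Fin 2 => if i = 0 then Polynomial.C a else
      Polynomial.X) F) = aeval (fun i : Fin 2 => if i = 0 then Polynomial.C a else
      Polynomial.X) (pderiv 1 F) := by
  induction F using MvPolynomial.induction_on with
  | C r =>
    rw [pderiv_C, map_zero, aeval_C]
    exact Polynomial.derivative_C
  | add p q hp hq => rw [map_add, map_add, map_add, hp, hq, map_add]
  | mul_X p i hp =>
    rw [map_mul, Polynomial.derivative_mul, hp, Derivation.leibniz, aeval_X, map_add,
      smul_eq_mul, smul_eq_mul, map_mul, map_mul, aeval_X, pderiv_X]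
    rcases Fin.exists_fin_two.mp ⟨i, rfl⟩ with rfl | rfl
    · simp only [if_true, Polynomial.derivative_C, mul_zero, add_zero]
      rw [Pi.single_eq_of_ne (by decide), map_zero, mul_zero, zero_add, mul_comm]
    · rw [if_neg (by decide), Polynomial.derivative_X, Pi.single_eq_same, map_one, mul_one]
      ring

theorem eval_aeval {R : Type} [CommRing R] (a b : R) (F : MvPolynomial (Fin 2) R) :
    Polynomial.eval b (aeval (fun i : Fin 2 => if i = 0 then Polynomial.C a else
      Polynomial.X) F) = eval (fun i : Fin 2 => if i = 0 then a else b) F := by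
  induction F using MvPolynomial.induction_on with
  | C r =>
    rw [aeval_C, eval_C]
    exact Polynomial.eval_C
  | add p q hp hq => rw [map_add, Polynomial.eval_add, hp, hq, map_add]
  | mul_X p i hp =>
    rw [map_mul, Polynomial.eval_mul, hp, map_mul, aeval_X, eval_X]
    congr 1
    split_ifs
    · exact Polynomial.eval_C
    · exact Polynomial.eval_X

theorem eval_mod (l : ℕ) (G : MvPolynomial (Fin 2) ℤ) (P : Fin 2 → ℤ) :
    eval (fun i : Fin 2 => if i = 0 then (P 0 : ZMod l) else (P 1 : ZMod l))
      (map (Int.castRingHom (ZMod l)) G) = (eval P G : ℤ) := by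
  have h : (fun i : Fin 2 => if i = 0 then (P 0 : ZMod l) else (P 1 : ZMod l)) =
      fun i => Int.castRingHom (ZMod l) (P i) := by
    funext i
    rcases Fin.exists_fin_two.mp ⟨i, rfl⟩ with rfl | rfl
    · rfl
    · rfl
  rw [h, eval_map]
  exact (eval₂_comp (Int.castRingHom (ZMod l)) P G).symm

theorem qa_root (l : ℕ) (G : MvPolynomial (Fin 2) ℤ) (P : Fin 2 → ℤ)
    (hP : eval P G = 0) : Polynomial.eval (P 1 : ZMod l) (qa l G (P 0 : ZMod l)) = 0 := by
  unfold qa
  rw [eval_aeval, eval_mod, hP, Int.cast_zero]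

theorem qa_ne (l : ℕ) (G : MvPolynomial (Fin 2) ℤ) (P : Fin 2 → ℤ)
    (hP : ¬ (l : ℤ) ∣ eval P (pderiv 1 G)) : qa l G (P 0 : ZMod l) ≠ 0 := by
  intro h
  refine hP ?_
  rw [← ZMod.intCast_zmod_eq_zero_iff_dvd, ← eval_mod, ← pderiv_map, ← eval_aeval,
    ← derivative_aeval]
  unfold qa at h
  rw [h, Polynomial.derivative_zero, Polynomial.eval_zero]

theorem bpc : BpcStmt := by
  classical
  intro hbez hcls hmno D
  obtain ⟨B, hB⟩ := hbez D
  refine ⟨B, ?_⟩
  intro e N l _ G he1 heD hirr hdeg hlt
  set S : Set (Fin 2 → ℤ) := {P : Fin 2 → ℤ | (∀ i, |P i| ≤ N) ∧ MvPolynomial.eval P G = 0 ∧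
    ¬ (l : ℤ) ∣ MvPolynomial.eval P (MvPolynomial.pderiv 1 G)} with hS
  have hfin : S.Finite := by
    refine Set.Finite.subset (Set.finite_Icc (fun _ : Fin 2 => -(N : ℤ)) (fun _ => (N : ℤ))) ?_
    intro P hP
    exact ⟨fun i => (abs_le.mp (hP.1 i)).1, fun i => (abs_le.mp (hP.1 i)).2⟩
  rw [hfin.encard_eq_coe_toFinset_card]
  set s := hfin.toFinset with hs
  have hmem : ∀ P, P ∈ s ↔ ((∀ i, |P i| ≤ N) ∧ MvPolynomial.eval P G = 0 ∧
    ¬ (l : ℤ) ∣ MvPolynomial.eval P (MvPolynomial.pderiv 1 G)) := by
    intro P
    rw [hs, Set.Finite.mem_toFinset, hS]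
    rfl
  have hdegG : G.totalDegree ≤ e := by
    rw [← hdeg]
    unfold MvPolynomial.totalDegree
    rw [support_map_of_injective G (RingHom.injective_int (Int.castRingHom ℚ))]
  let φ : (Fin 2 → ℤ) → ZMod l × ZMod l := fun P => ((P 0 : ZMod l), (P 1 : ZMod l))
  -- the number of pairs
  have himg : (s.image φ).card ≤ e * l := by
    have h1 : (s.image φ).card ≤ e * (Finset.univ : Finset (ZMod l)).card := by
      refine Finset.card_le_mul_card_image_of_maps_to (f := Prod.fst)
        (fun _ _ => Finset.mem_univ _) e ?_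
      intro a _
      rcases Finset.eq_empty_or_nonempty ((s.image φ).filter fun x => x.1 = a) with h | h
      · rw [h, Finset.card_empty]
        exact Nat.zero_le _
      obtain ⟨x, hx⟩ := h
      rw [Finset.mem_filter, Finset.mem_image] at hx
      obtain ⟨⟨P, hP, rfl⟩, hPa⟩ := hx
      have hPa' : (P 0 : ZMod l) = a := hPa
      have hne : qa l G a ≠ 0 := by
        rw [← hPa']
        exact qa_ne l G P ((hmem P).mp hP).2.2
      have h2 : ((s.image φ).filter fun x => x.1 = a).card ≤ (qa l G a).roots.toFinset.card := by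
        refine Finset.card_le_card_of_injOn Prod.snd ?_ ?_
        · intro x hx
          rw [Finset.mem_coe, Finset.mem_filter, Finset.mem_image] at hx
          obtain ⟨⟨P', hP', rfl⟩, hPa2⟩ := hx
          have hPa3 : (P' 0 : ZMod l) = a := hPa2
          rw [Finset.mem_coe, Multiset.mem_toFinset, Polynomial.mem_roots hne]
          show Polynomial.eval (P' 1 : ZMod l) (qa l G a) = 0
          rw [← hPa3]
          exact qa_root l G P' ((hmem P').mp hP').2.1
        · intro x hx y hy hxy
          rw [Finset.mem_coe, Finset.mem_filter] at hx hy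
          exact Prod.ext (hx.2.trans hy.2.symm) hxy
      refine h2.trans ((Multiset.toFinset_card_le _).trans ((Polynomial.card_roots' _).trans ?_))
      unfold qa
      have h3 := aeval_natDegree_le (map (Int.castRingHom (ZMod l)) G) (m := e) (n := 1)
        ((Finset.sup_mono (support_map_subset _ _)).trans hdegG)
        (fun i : Fin 2 => if i = 0 then Polynomial.C a else Polynomial.X) (fun i => by
          split_ifs
          · rw [Polynomial.natDegree_C]; exact Nat.zero_le _
          · exact Polynomial.natDegree_X_le)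
      rw [mul_one] at h3
      exact h3
    rwa [Finset.card_univ, ZMod.card] at h1
  -- the number of points for a pair
  have hfib : ∀ b ∈ s.image φ, (s.filter fun P => φ P = b).card ≤ B := by
    intro b hb
    rw [Finset.mem_image] at hb
    obtain ⟨P₁, hP₁, rfl⟩ := hb
    obtain ⟨x, hx1, hx2, hx3, hx4⟩ := hmno e D he1 heD _ hdeg
    have hP₁' := (hmem P₁).mp hP₁
    obtain ⟨c, hc, hcz⟩ := hcls l G (Le e D) N x (by rw [hx3]; exact hlt) P₁ hP₁'.2.2
      (s.filter fun P => φ P = φ P₁) (by
        intro P hP
        rw [Finset.mem_filter, hmem] at hP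
        refine ⟨hP.1.1, hP.1.2.1, ?_⟩
        have h0 : (P 0 : ZMod l) = (P₁ 0 : ZMod l) := congrArg Prod.fst hP.2
        have h1 : (P 1 : ZMod l) = (P₁ 1 : ZMod l) := congrArg Prod.snd hP.2
        intro i
        rcases Fin.exists_fin_two.mp ⟨i, rfl⟩ with rfl | rfl
        · exact (ZMod.intCast_eq_intCast_iff_dvd_sub _ _ _).mp h0.symm
        · exact (ZMod.intCast_eq_intCast_iff_dvd_sub _ _ _).mp h1.symm)
    set F : MvPolynomial (Fin 2) ℚ := ∑ a, MvPolynomial.C (c a : ℚ) *
      (MvPolynomial.X 0 ^ (x a 0) * MvPolynomial.X 1 ^ (x a 1)) with hF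
    have hndvd : ¬ (map (Int.castRingHom ℚ) G) ∣ F := by
      refine hx4 (fun a => (c a : ℚ)) ?_
      intro h
      refine hc ?_
      funext a
      have := congrFun h a
      exact Int.cast_eq_zero.mp this
    have hrel : IsRelPrime (map (Int.castRingHom ℚ) G) F :=
      hirr.isRelPrime_iff_not_dvd.mpr hndvd
    have hFdeg : F.totalDegree ≤ D := by
      refine totalDegree_finsetSum_le fun a _ => ?_
      refine (totalDegree_mul _ _).trans ?_
      rw [totalDegree_C, zero_add]
      refine (totalDegree_mul _ _).trans ?_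
      refine (add_le_add (totalDegree_pow _ _) (totalDegree_pow _ _)).trans ?_
      rw [totalDegree_X, totalDegree_X, mul_one, mul_one]
      exact hx2 a
    have hb := hB _ F (hdeg.le.trans heD) hFdeg hrel
    have h5 : ((s.filter fun P => φ P = φ P₁).card : ℕ∞) ≤ B := by
      refine le_trans ?_ hb
      rw [← Set.encard_coe_eq_coe_finsetCard]
      have hinj : Function.Injective (fun (P : Fin 2 → ℤ) (i : Fin 2) => (P i : ℚ)) := by
        intro P P' h
        funext i
        exact Int.cast_injective (congrFun h i)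
      rw [← hinj.encard_image]
      refine Set.encard_le_encard ?_
      rintro _ ⟨P, hP, rfl⟩
      rw [Finset.mem_coe] at hP
      have hP' := hP
      rw [Finset.mem_filter, hmem] at hP'
      refine ⟨?_, ?_⟩
      · have h6 : (eval (fun i : Fin 2 => (P i : ℚ)) (map (Int.castRingHom ℚ) G)) =
            ((eval P G : ℤ) : ℚ) := by
          rw [eval_map]
          exact (eval₂_comp (Int.castRingHom ℚ) P G).symm
        show eval (fun i : Fin 2 => (P i : ℚ)) (map (Int.castRingHom ℚ) G) = 0
        rw [h6, hP'.1.2.1, Int.cast_zero]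
      · show eval (fun i : Fin 2 => (P i : ℚ)) F = 0
        have h7 := hcz P hP
        rw [hF, map_sum]
        simp only [map_mul, map_pow, eval_X, eval_C]
        have h8 := congrArg (fun z : ℤ => (z : ℚ)) h7
        simp only [Int.cast_sum, Int.cast_mul, Int.cast_pow, Int.cast_zero] at h8
        exact h8
    exact_mod_cast h5
  have hfinal := Finset.card_le_mul_card_image s B hfib
  have : s.card ≤ e * l * B := by
    calc s.card ≤ B * (s.image φ).card := hfinal
      _ ≤ B * (e * l) := Nat.mul_le_mul_left _ himg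
      _ = e * l * B := by ring
  exact_mod_cast this

end Pool.Agent.LPW.H13
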