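import Pool.Agent.LPW.StmtsF

/-!
Squad LPW, row INM (helper13): one-parameter families with independent units.
-/

set_option autoImplicit false

open Polynomial NumberField
open Pool.Agent.Helper85_Leo (LeopoldtAt)
open Pool.Agent.LUB (FullRank sp spr Exceptional Fam MainStmt)

namespace Pool.Agent.LPW.H13

theorem inm : InmStmt := by
  intro hmain hirr hfru hnm1 p _ n r D
  obtain ⟨K₀, hK₀⟩ := hmain p n r D
  refine ⟨max K₀ (2 * (n * (D + D * D))), ?_⟩
  intro f u hfam hind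
  by_contra hcon
  rw [not_le] at hcon
  obtain ⟨hf, hn, hfD, hu⟩ := hfam
  have h1 : ((K₀ : ℕ) : ℕ∞) < {t : ℤ | Exceptional p f u t}.encard :=
    lt_of_le_of_lt (by exact_mod_cast le_max_left _ _) hcon
  have h2 : ((2 * (n * (D + D * D)) : ℕ) : ℕ∞) < {t : ℤ | Exceptional p f u t}.encard :=
    lt_of_le_of_lt (by exact_mod_cast le_max_right _ _) hcon
  have h3 : ∀ i, ∃ v b : ℤ[X][X], u i * v = 1 + f * b := by
    intro i
    refine hnm1 n D f (u i) hf hn hfD (hu i).1 (hu i).2 (lt_of_lt_of_le h2 ?_)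
    refine Set.encard_le_encard ?_
    rintro t ⟨K, iK, nK, θ, ha, hb, hc, hd, -, -⟩
    exact ⟨K, iK, nK, θ, ha, hb, hc.trans hn, hd i⟩
  choose v b hvb using h3
  have hne : {t : ℤ | Exceptional p f u t}.Nonempty := by
    rw [← Set.encard_pos]
    exact lt_of_le_of_lt zero_le h1
  obtain ⟨t, K, iK, nK, θ, ha, hb, hc, hd, -, -⟩ := hne
  have hfi : Irreducible f :=
    hirr ℤ[X] f (evalRingHom t) n hf hn ⟨K, iK, nK, θ, ha, hb, hc.trans hn⟩
  have hfull : FullRank f u := hfru r f u v b hf hfi hvb hind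
  exact absurd (hK₀ f u hf hn hfD hu hfull) (not_le.mpr h1)

end Pool.Agent.LPW.H13
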