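import Pool.Agent.LPW.StmtsD

/-!
Squad LPW, row SPG (helper13): the members of the two-parameter family.
-/

set_option autoImplicit false

open Polynomial
open Pool.Agent.Helper65_Dens (Par gpoly Ix degs prodPoly ixMap Sep)

namespace Pool.Agent.LPW.H13

theorem fac_inl {r₁ r₂ : ℕ} (a : Ix r₁ r₂ → ℤ) (i : Fin r₁) :
    fac a (.inl i) = X + C (a (.inl i)) := by
  have h1 : fac a (.inl i) =
      X ^ 1 + ∑ k : Fin 1, C (a (.inl i)) * X ^ (k : ℕ) := rfl
  rw [h1]
  simp

theorem fac_inr {r₁ r₂ : ℕ} (a : Ix r₁ r₂ → ℤ) (j : Fin r₂) :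
    fac a (.inr j) = X ^ 2 + C (a (.inr (.inl j))) * X + C (a (.inr (.inr j))) := by
  have h1 : fac a (.inr j) =
      X ^ 2 + ∑ k : Fin 2, C (a (if k.val = 0 then .inr (.inr j) else .inr (.inl j))) *
        X ^ (k : ℕ) := rfl
  rw [h1, Fin.sum_univ_two]
  simp
  ring

theorem fac_monic {r₁ r₂ : ℕ} (a : Ix r₁ r₂ → ℤ) (j : Fin r₁ ⊕ Fin r₂) :
    (fac a j).Monic ∧ (fac a j).natDegree = degs r₁ r₂ j := by
  rcases j with i | j
  · rw [fac_inl]
    exact ⟨monic_X_add_C _, natDegree_X_add_C _⟩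
  · rw [fac_inr]
    have h : (X ^ 2 + C (a (.inr (.inl j))) * X + C (a (.inr (.inr j))) : ℤ[X]) =
        C 1 * X ^ 2 + C (a (.inr (.inl j))) * X + C (a (.inr (.inr j))) := by simp
    rw [h]
    refine ⟨?_, natDegree_quadratic one_ne_zero⟩
    unfold Monic
    exact leadingCoeff_quadratic one_ne_zero

theorem fac_shg {r₁ r₂ : ℕ} (a : Ix r₁ r₂ → ℤ) (i : Fin 2 → Fin r₁ ⊕ Fin r₂) (P : Fin 2 → ℤ)
    (j : Fin r₁ ⊕ Fin r₂) : fac (shg (fun k => cst (i k)) a P) j =
      fac a j + C (∑ k, if j = i k then P k else 0) := by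
  rcases j with j | j
  · rw [fac_inl, fac_inl]
    unfold shg
    have h : ∀ k, ((Sum.inl j : Ix r₁ r₂) = cst (i k)) ↔ (Sum.inl j = i k) := by
      intro k
      rcases hk : i k with l | l
      · simp only [cst, Sum.inl.injEq]
      · simp only [cst, reduceCtorEq]
    simp only [h, C_add, add_assoc]
  · rw [fac_inr, fac_inr]
    unfold shg
    have h : ∀ k, ((Sum.inr (Sum.inr j) : Ix r₁ r₂) = cst (i k)) ↔ (Sum.inr j = i k) := by
      intro k
      rcases hk : i k with l | l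
      · simp only [cst, reduceCtorEq]
      · simp only [cst, Sum.inr.injEq]
    have h' : ∀ k, ¬ ((Sum.inr (Sum.inl j) : Ix r₁ r₂) = cst (i k)) := by
      intro k
      rcases hk : i k with l | l
      · simp only [cst, reduceCtorEq, not_false_eq_true]
      · simp only [cst, Sum.inr.injEq, reduceCtorEq, not_false_eq_true]
    simp only [h, h', if_false, Finset.sum_const_zero, add_zero, C_add, add_assoc]

theorem spr2_gg {r₁ r₂ : ℕ} (a : Ix r₁ r₂ → ℤ) (i : Fin 2 → Fin r₁ ⊕ Fin r₂) (P : Fin 2 → ℤ)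
    (j : Fin r₁ ⊕ Fin r₂) : spr2 (gg a i j) P = fac (shg (fun k => cst (i k)) a P) j := by
  rw [fac_shg]
  unfold spr2 gg
  rw [Polynomial.map_add, Polynomial.map_map, Polynomial.map_C]
  congr 1
  · have h : (MvPolynomial.eval₂Hom (Int.castRingHom ℤ) P).comp MvPolynomial.C =
        RingHom.id ℤ := RingHom.ext_int _ _
    rw [h, Polynomial.map_id]
  · congr 1
    rw [map_sum]
    refine Finset.sum_congr rfl fun k _ => ?_
    split_ifs
    · simp
    · simp

/-- The coefficients have total degree at most `D`. -/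
def TD (D : ℕ) (f : (MvPolynomial (Fin 2) ℤ)[X]) : Prop := ∀ j, (f.coeff j).totalDegree ≤ D

theorem TD.mono {D D' : ℕ} (h : D ≤ D') {f : (MvPolynomial (Fin 2) ℤ)[X]} (hf : TD D f) :
    TD D' f := fun j => (hf j).trans h

theorem TD.mul {D D' : ℕ} {f g : (MvPolynomial (Fin 2) ℤ)[X]} (hf : TD D f) (hg : TD D' g) :
    TD (D + D') (f * g) := by
  intro j
  rw [coeff_mul]
  refine MvPolynomial.totalDegree_finsetSum_le fun x _ => ?_
  exact (MvPolynomial.totalDegree_mul _ _).trans (add_le_add (hf _) (hg _))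

theorem TD.prod {ι : Type} (s : Finset ι) (f : ι → (MvPolynomial (Fin 2) ℤ)[X])
    (hf : ∀ j ∈ s, TD 1 (f j)) : TD s.card (∏ j ∈ s, f j) := by
  classical
  induction s using Finset.induction_on with
  | empty =>
    intro j
    rw [Finset.prod_empty, coeff_one]
    split_ifs <;> simp
  | insert x s hx ih =>
    rw [Finset.prod_insert hx, Finset.card_insert_of_notMem hx, add_comm]
    exact (hf x (Finset.mem_insert_self _ _)).mul
      (ih fun j hj => hf j (Finset.mem_insert_of_mem hj))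

theorem gg_td {r₁ r₂ : ℕ} (a : Ix r₁ r₂ → ℤ) (i : Fin 2 → Fin r₁ ⊕ Fin r₂)
    (j : Fin r₁ ⊕ Fin r₂) : TD 1 (gg a i j) := by
  intro l
  unfold gg
  rw [coeff_add, coeff_map, coeff_C]
  refine (MvPolynomial.totalDegree_add _ _).trans (max_le ?_ ?_)
  · rw [MvPolynomial.totalDegree_C]
    exact Nat.zero_le _
  · split_ifs
    · refine MvPolynomial.totalDegree_finsetSum_le fun k _ => ?_
      split_ifs
      · rw [MvPolynomial.totalDegree_X]
      · simp
    · simp

theorem gg_monic {r₁ r₂ : ℕ} (a : Ix r₁ r₂ → ℤ) (i : Fin 2 → Fin r₁ ⊕ Fin r₂)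
    (j : Fin r₁ ⊕ Fin r₂) : (gg a i j).Monic ∧ (gg a i j).natDegree = degs r₁ r₂ j := by
  obtain ⟨h1, h2⟩ := fac_monic a j
  have h3 : ((fac a j).map (MvPolynomial.C (σ := Fin 2))).Monic := h1.map _
  have h4 : ((fac a j).map (MvPolynomial.C (σ := Fin 2))).natDegree = degs r₁ r₂ j := by
    rw [h1.natDegree_map, h2]
  unfold gg
  refine ⟨?_, ?_⟩
  · refine h3.add_of_left ?_
    refine lt_of_le_of_lt degree_C_le ?_
    rw [← natDegree_pos_iff_degree_pos, h4]
    rcases j with j | j <;> simp [degs]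
  · rw [natDegree_add_C, h4]

theorem prod_gg_monic {r₁ r₂ : ℕ} (a : Ix r₁ r₂ → ℤ) (i : Fin 2 → Fin r₁ ⊕ Fin r₂) :
    (∏ j, gg a i j).Monic ∧ (∏ j, gg a i j).natDegree = r₁ + 2 * r₂ := by
  refine ⟨monic_prod_of_monic _ _ fun j _ => (gg_monic a i j).1, ?_⟩
  rw [natDegree_prod_of_monic _ _ fun j _ => (gg_monic a i j).1]
  simp only [(gg_monic a i _).2]
  rw [Fintype.sum_sum_type]
  simp
  ring

theorem spg : SpgStmt := by
  intro r₁ r₂ hr a i _
  refine ⟨spr2_gg a i, ?_, Pool.Agent.Helper65_Dens.prod_gpoly_ixMap, ?_⟩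
  · intro P
    have h3 := Pool.Agent.Helper65_Dens.prod_gpoly_ixMap (shg (fun k => cst (i k)) a P)
    rw [← h3]
    unfold ff
    unfold spr2
    rw [Polynomial.map_sub, Polynomial.map_one, Polynomial.map_prod]
    congr 1
    exact Finset.prod_congr rfl fun j _ => spr2_gg a i P j
  · intro r e
    obtain ⟨h1, h2⟩ := prod_gg_monic a i
    have hpos : 0 < (∏ j, gg a i j).degree := by
      rw [← natDegree_pos_iff_degree_pos, h2]
      omega
    have h3 : TD (Fintype.card (Fin r₁ ⊕ Fin r₂)) (∏ j, gg a i j) :=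
      TD.prod Finset.univ _ fun j _ => gg_td a i j
    rw [Fintype.card_sum, Fintype.card_fin, Fintype.card_fin] at h3
    refine ⟨?_, ?_, ?_, ?_⟩
    · unfold ff
      refine h1.sub_of_left ?_
      rw [degree_one]
      exact hpos
    · unfold ff
      have h : ((∏ j, gg a i j) - 1 : (MvPolynomial (Fin 2) ℤ)[X]) =
        (∏ j, gg a i j) - C 1 := by rw [C_1]
      rw [h, natDegree_sub_C, h2]
    · intro j
      unfold ff
      rw [coeff_sub, coeff_one]
      refine (MvPolynomial.totalDegree_sub _ _).trans (max_le ((h3 j).trans (by omega)) ?_)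
      split_ifs <;> simp
    · intro l
      refine ⟨?_, fun j => (gg_td a i (e l) j).trans (by omega)⟩
      rw [(gg_monic a i (e l)).2]
      rcases e l with j | j
      · simp only [degs, Sum.elim_inl]
        omega
      · simp only [degs, Sum.elim_inr]
        omega

end Pool.Agent.LPW.H13
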